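import Pool.Agent.Run7.h821.GfT

/-!
# Kodaira dimension `-∞` for the images of fibrations by curves over subvarieties of products

Let `V` be a smooth projective variety over `ℂ` of dimension `n + 1` and let `V ⇢ X` be a fibration by
curves; the curves are arbitrary and may vary in moduli as much as possible. Suppose that `X` is given
as the image of `V` in a product of varieties `X 0 × ... × X (k - 1)`, and let `𝓛 i` be linear systems
on the `X i` (linear systems of line bundles `L i`; in this file `H i` is the set of the quotients of
their sections by a fixed one). Suppose that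

* there are as many forms `ω j`, sections of `K_V - ∑ L i`, linearly independent over the function
  field of `X`, as the genus of the curves.

Let `V ⇢ W` be any dominant rational map of finite degree. It need not be related to the fibration,
and its ramification is arbitrary. Let `W_i` be the image of `V` in `W × X 0 × ... × X (i - 1)`. A
point of `W_i` has `d i` points of `X i` below it, i.e. such that `V` has a point with these images in
`W_i` and `X i`. The condition is

* (One) the points of `X i` below one point of `W_i` impose independent conditions on `𝓛 i`.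

Criteria: `𝓛 i` separates `d i` points; or `𝓛 i` contains all forms of degree `ρ i` in coordinates
`1, t 1, ..., t m` of `X i`, where `ρ i` is the regularity index of these points, i.e. all functions on
them are polynomials of degree at most `ρ i` in the `t j`. One has `ρ i ≤ d i - 1`, with equality only
for points on a line; if the points are a complete intersection of hypersurfaces of degree `e` in an
affine space of dimension `m` then `d i = e ^ m` and `ρ i = m (e - 1)`. So the degree of
`V ⇢ W`, which is at least the product of the `d i`, can be much larger than the positivity of the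
forms `ω j`.

**Theorem.** For all smooth projective `W` as above

`κ(W) = -∞ ⟺ p_g(W) = 0 ⟺ K_W is not pseudo-effective ⟺ W is uniruled`,

and this is so if and only if the images in `W'` of the curves are rational, where `W'` is the image of
`V` in `W × X`. In particular `W` has a Gauduchon metric with positive total scalar curvature if and
only if `κ(W) = -∞`.

Proof. Let `γ` be the genus of the geometric generic fibre of `W' ⇢ X`. The traces of the forms `ω j`
generate the regular differentials of this curve. If `γ = 0` then `W'` and `W` are uniruled. If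
`γ ≥ 1` then some trace is not zero. The traces on `W` of the forms `s 0 ... s (k - 1) ω j`,
`s i ∈ 𝓛 i`, are canonical forms of `W`. If they are all zero then the points in a fibre of `V ⇢ W`
satisfy a relation; by (One) the points with given coordinates in `X 0, ..., X (i - 1)` do, for
`i = 1, ..., k` one after the other, and in the end the trace of `ω j` to `W'` is zero, a
contradiction. So `p_g(W) ≠ 0`.

The function-field language of the starting repository is used: `K`, `L` and `F i` are the function
fields of `V`, `W` and `X i`.
-/

set_option autoImplicit false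
set_option linter.overlappingInstances false
set_option maxHeartbeats 4000000
set_option synthInstance.maxHeartbeats 400000

open FF Module IntermediateField Pool.Agent Pool.Agent.W602.GT
open Pool.Agent.W619.PQ (IsUniruled)

namespace Pool.Agent.Results.MP_23b606_ag.ImagesOfCurveFibrations

section

variable {K : Type} [Field K] [Algebra ℂ K] {L : Type} [Field L] [Algebra ℂ L] [Algebra L K]
  [IsScalarTower ℂ L K]

/-- Let `K` be the function field of a variety `V`, and let `M` and `E` be the function fields of
varieties `W_i` and `X_i` which are dominated by `V`. The points of `X_i` below the (generic) point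
`α` of `W_i`, with coordinates in the field `Ω`: there is a point `τ` of `V` with the image `α` in
`W_i` and the image `σ` in `X_i`. -/
def Below (M : IntermediateField L K) (E : IntermediateField ℂ K) {Ω : Type} [Field Ω]
    [Algebra ℂ Ω] (α : M →ₐ[ℂ] Ω) : Set (E →ₐ[ℂ] Ω) :=
  {σ | ∃ τ : K →ₐ[ℂ] Ω, (∀ z : M, τ z = α z) ∧ ∀ z : E, τ z = σ z}

/-- (One) The points of `X_i` below a point of `W_i` impose independent conditions on the linear
system `H`: a relation `∑ c σ * σ f = 0` for all `f ∈ H` is trivial. -/
def OneFibre (M : IntermediateField L K) (E : IntermediateField ℂ K) (H : Set E) : Prop :=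
  ∀ (Ω : Type) [Field Ω] [Algebra ℂ Ω] [IsAlgClosed Ω] (α : M →ₐ[ℂ] Ω)
    (A : Finset (E →ₐ[ℂ] Ω)), (∀ σ ∈ A, σ ∈ Below M E α) →
    ∀ c : (E →ₐ[ℂ] Ω) → Ω, (∀ f ∈ H, ∑ σ ∈ A, c σ * σ f = 0) → ∀ σ ∈ A, c σ = 0

/-- The linear system `H` on the variety with the function field `E` separates `r` points: at most
`r` different points impose independent conditions. -/
def SeparatesPoints (E : IntermediateField ℂ K) (H : Set E) (r : ℕ) : Prop :=
  ∀ (Ω : Type) [Field Ω] [Algebra ℂ Ω] [IsAlgClosed Ω] (A : Finset (E →ₐ[ℂ] Ω)), A.card ≤ r →
    ∀ c : (E →ₐ[ℂ] Ω) → Ω, (∀ f ∈ H, ∑ σ ∈ A, c σ * σ f = 0) → ∀ σ ∈ A, c σ = 0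

/-- The number of the points of `X_i` below a point of `W_i`: the degree over `M` of the compositum. -/
noncomputable def deg (M : IntermediateField L K) (E : IntermediateField ℂ K) : ℕ :=
  finrank M (IntermediateField.adjoin M (E : Set K))

/-- The regularity index of the points below a point of the variety with the function field `M` is at
most `ρ`: the functions on the compositum are polynomials of degree at most `ρ` in the `t j`, with
coefficients in `M`. -/
def RegularityLe (M : IntermediateField L K) (E : IntermediateField ℂ K) {m : ℕ} (t : Fin m → E)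
    (ρ : ℕ) : Prop :=
  ∀ z ∈ IntermediateField.adjoin M (E : Set K), ∃ p : MvPolynomial (Fin m) M,
    p.totalDegree ≤ ρ ∧ MvPolynomial.aeval (fun j => (t j : K)) p = z

/-- The condition (One), or one of the criteria for it. -/
def Condition (M : IntermediateField L K) (E : IntermediateField ℂ K) (H : Set E) : Prop :=
  OneFibre M E H ∨ SeparatesPoints E H (deg M E) ∨
    ∃ (m : ℕ) (t : Fin m → E) (ρ : ℕ), RegularityLe M E t ρ ∧
      ∀ a : Fin m → ℕ, ∑ j, a j ≤ ρ → ∏ j, t j ^ a j ∈ H

end

/-- The geometric genus of the varieties of dimension `w` over `k` with the function field `K` is at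
most `g`: any `g + 1` canonical forms which are regular at all prime divisors are linearly
dependent over `k`. -/
def GenusLe (k K : Type) [Field k] [Field K] [Algebra k K] (w g : ℕ) : Prop :=
  ∀ ω : Fin (g + 1) → (Fin w → Derivation k K K) → K, (∀ j, IsPluri 1 (ω j)) →
    (∀ j (P : Place k K), Divisorial w P → RegAt P (ω j)) →
    ∃ c : Fin (g + 1) → k, c ≠ 0 ∧ ∀ D, ∑ j, algebraMap k K (c j) * ω j D = 0

section

variable {K : Type} [Field K] [Algebra ℂ K]

/-- Let `B ≤ E` be the function fields of `X` and of a variety which is fibred over `X` by curves.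
The genus of the geometric generic fibre is at most `g`. The function field of the geometric generic
fibre is the field generated by `E` over the algebraic closure of `B`. -/
def FibreGenusLe (B E : IntermediateField ℂ K) (g : ℕ) : Prop :=
  GenusLe (algebraicClosure B (AlgebraicClosure K))
    (IntermediateField.adjoin (algebraicClosure B (AlgebraicClosure K))
      (algebraMap K (AlgebraicClosure K) '' E)) 1 g

variable {k : ℕ}

/-- The form `ω` is a section of `K_V - ∑ L i`: its products with sections of the linear systems are
regular at all prime divisors. -/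
def IsTwisted {F : Fin k → IntermediateField ℂ K} (H : ∀ i, Set (F i)) (N : ℕ)
    (ω : (Fin N → Derivation ℂ K K) → K) : Prop :=
  IsPluri 1 ω ∧ ∀ f : ∀ i, F i, (∀ i, f i ∈ H i) → ∀ P : Place ℂ K, Divisorial N P →
    RegAt P (fun D => (∏ i, (f i : K)) * ω D)

/-- The function field of the image `X` of `V` in the product of the `X i`. -/
noncomputable def Base (F : Fin k → IntermediateField ℂ K) : IntermediateField ℂ K := ⨆ i, F i

/-- The function field of the image `W_i` of `V` in the product of `W` and `X 0, ..., X (i - 1)`. -/
noncomputable def Img (F : Fin k → IntermediateField ℂ K) (L : Type) [Field L] [Algebra L K]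
    (i : ℕ) : IntermediateField L K :=
  IntermediateField.adjoin L {z | ∃ l : Fin k, l.val < i ∧ z ∈ F l}

theorem img_eq (F : Fin k → IntermediateField ℂ K) (L : Type) [Field L] [Algebra L K] (i : ℕ) :
    N145.PC.MF F L (N145.PC.Js k i) = Img F L i := by
  unfold N145.PC.MF N145.PC.MJ Img
  congr 1
  ext z
  simp only [Set.mem_iUnion, N145.PC.mem_Js, Set.mem_range, exists_prop]
  constructor
  · rintro ⟨l, hl, z, rfl⟩
    exact ⟨l, hl, z.2⟩
  · rintro ⟨l, hl, hz⟩
    exact ⟨l, hl, ⟨z, hz⟩, rfl⟩

end

/-- **Kodaira dimension `-∞` for the images of fibrations by curves.** Let `K` be the function field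
of a variety `V` of dimension `n + 1`, let `F i`, `i < k`, be the function fields of varieties `X i`
which are dominated by `V`, such that the image `X` of `V` in the product of the `X i` has dimension
`n` and its function field is algebraically closed in `K`. Let `H i` be linear systems on the `X i`,
let the genus of the geometric generic fibre of `V ⇢ X` be at most `r`, and let `ω 1, ..., ω r` be
sections of `K_V - ∑ L i` which are linearly independent over the function field of `X`. Let `L ⊆ K`
be the function field of a variety `W`, let the extension be finite, and let (One) (or a criterion for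
it) hold for all `i`. The following are equivalent: the geometric generic fibre of `W' ⇢ X` is
rational, `W'` the image of `V` in `W × X`; `p_g(W) = 0`; `κ(W) = -∞`; `K_W` is not pseudo-effective;
`W` is uniruled. -/
theorem result {K : Type} [Field K] [Algebra ℂ K] [Algebra.EssFiniteType ℂ K] {n k r : ℕ}
    (hK : Algebra.trdeg ℂ K = (n + 1 : ℕ)) (F : Fin k → IntermediateField ℂ K)
    (hb : Algebra.trdeg ℂ (Base F) = n) (hcl : ∀ z : K, IsAlgebraic (Base F) z → z ∈ Base F)
    (H : ∀ i, Set (F i)) (hH : ∀ i, 1 ∈ H i) (hr : FibreGenusLe (Base F) ⊤ r)
    (ω : Fin r → (Fin (n + 1) → Derivation ℂ K K) → K) (hω : ∀ j, IsTwisted H (n + 1) (ω j))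
    (hind : ∀ b : Fin r → Base F, (∀ D, ∑ j, (b j : K) * ω j D = 0) → b = 0)
    (L : Type) [Field L] [Algebra ℂ L] [Algebra L K] [IsScalarTower ℂ L K]
    [FiniteDimensional L K] (hO : ∀ i : Fin k, Condition (Img F L i) (F i) (H i)) :
    [FibreGenusLe (Base F) ((Img F L k).restrictScalars ℂ) 0, GenusLe ℂ L (n + 1) 0,
      ¬ KodGe ℂ L (n + 1) (fun _ => False) 0, ¬ Psef ℂ L (n + 1) (fun _ => False),
      IsUniruled ℂ L (n + 1)].TFAE := by
  classical
  have hL : Algebra.trdeg ℂ L = (n + 1 : ℕ) := Pool.Agent.Y184.NT.trdeg_below (K := K) hK
  have hessL : Algebra.EssFiniteType ℂ L := Pool.Agent.TH466.QG.ess_below (K := K)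
  have hO' : ∀ i : Fin k, _root_.Run7.h821.One (N145.PC.MF F L (N145.PC.Js k i)) (F i) (H i) := by
    intro i
    rw [img_eq]
    rcases hO i with h | h | ⟨m, t, ρ, h, h'⟩
    · exact h
    · exact _root_.Run7.h821.one_of_sep le_rfl h
    · exact _root_.Run7.h821.one_of_reg h h'
  have hreg : ∀ j (P : Place ℂ K), Divisorial (n + 1) P → RegAt P (ω j) := by
    intro j P hP D hD
    have h1 := (hω j).2 (fun _ => 1) hH P hP D hD
    simpa using h1
  have huniv : N145.PC.MF F L Finset.univ = Img F L k := by
    rw [← _root_.Run7.h821.js_univ, img_eq]
  obtain ⟨h1, h2, -⟩ := _root_.Run7.h821.curves (L := L) hK (F := F) (H := H)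
    (B := Base F) rfl hb hcl hr hω hreg hind
  rw [huniv] at h1 h2
  tfae_have 1 → 5 := h1
  tfae_have 5 → 4 := fun h h' =>
    (Pool.Agent.W619.Y.uniruled_neg (n + 1) hL h).1
      ((Pool.Agent.TH466.QG.psef_iff (n + 1)).1 h')
  tfae_have 4 → 3 := fun h h' => h (psef_of_kodGe h')
  tfae_have 3 → 2 := by
    intro h ω hω hreg
    refine ⟨fun _ => 1, fun h0 => one_ne_zero (congrFun h0 0), fun D => ?_⟩
    rw [Fin.sum_univ_one, map_one, one_mul]
    by_contra hne
    refine h ⟨1, one_pos, fun _ => ω 0, fun _ => ⟨hω 0, fun P hP D' hD' => ?_,
      fun P hP _ => hreg 0 P hP⟩, D, hne, ?_⟩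
    · exact hreg 0 P hP D' fun i => Pool.Agent.TH466.QG.derReg_of_log (hD' i)
    · exact algebraicIndependent_empty_type
  tfae_have 2 → 1 := by
    intro hg
    by_contra h0
    obtain ⟨η, hη, D, hD, -⟩ := h2 hO' h0
    obtain ⟨c, hc0, hc⟩ := hg (fun _ => η 0) (fun _ => (hη 0).1) fun _ => (hη 0).2
    have h5 := hc D
    rw [Fin.sum_univ_one] at h5
    rcases mul_eq_zero.1 h5 with h6 | h6
    · apply hc0
      funext j
      have hj : j = (0 : Fin 1) := Subsingleton.elim (α := Fin 1) j 0
      rw [hj]
      exact (map_eq_zero _).1 h6
    · exact hD h6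
  tfae_finish

end Pool.Agent.Results.MP_23b606_ag.ImagesOfCurveFibrations
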