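import Pool.Agent.Run7.h528.MB.Quot

/-!
The canonical divisor of the finite images, for instance the quotients by finite groups, of varieties
with an abelian group of pseudo-automorphisms of rank `ρ - k` and `k` invariant blocks of divisor
classes.
-/

set_option autoImplicit false

open FF Pool.Agent.W602.GT Pool.Agent.Y172 Pool.Agent.R887 Pool.Agent.N110 Pool.Agent.N110.CC
open Run7.h528.MB

/-- Let `X'` be a normal projective variety of dimension `n ≥ 1`, with generic point `y'`. Let the
vectors `c' P` be the classes of the prime divisors in `N¹(X') = ℤ ^ ρ` (if `X'` is `ℚ`-factorial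
then `ρ` is the Picard number of `X'`). Let `ℤ ^ r`, `r ≥ 1`, act on `X'` by pseudo-automorphisms
`f_v`, given by the automorphisms `φ v = f_v^*` of the function field, and suppose that `f_v` has
positive entropy (the first dynamical degree is greater than `1`) for all `v ≠ 0`. Suppose that
`N¹(X')` contains with finite index a direct sum `Λ_1 ⊕ … ⊕ Λ_k` of groups of rank at least `2` such
that `f_v^*` maps each `Λ_i` into itself, and that `r = ρ - k`. (The classes `u j` are a basis of the
sum, and `u j` is in `Λ_i` for `i = β j`.) The support of a class is the set of the `i` such that its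
component in `Λ_i ⊗ ℝ` is not zero.

Then there are nonzero rational pseudo-effective classes `e_1, …, e_k` in `Λ_1 ⊗ ℝ, …, Λ_k ⊗ ℝ` such
that the following is true for all finite morphisms `X' → X` onto normal projective varieties `X`,
for instance `X = X'` or the quotients by finite groups, given by the homomorphism `π` of the
function fields (more generally, for the rational maps which are finite morphisms in codimension
one; they have nothing to do with the maps `f_v`), and for all `ℚ`-divisors `Δ` on `X` which are at
most the branch divisor: the coefficient of the prime divisor `P` is at most `1 - 1 / e` for all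
ramification indices `e` over `P`. This is true for `Δ = 0`.

(1) The divisor `- (K_X + Δ)` is pseudo-effective. If `K_X + Δ` is pseudo-effective and the
irregularity of `X` is zero, then `K_X + Δ` is torsion: `m (K_X + Δ) ~ 0` for some `m ≥ 1`. So if the
Kodaira dimension of `K_X + Δ` is `-∞` then `K_X + Δ` is not pseudo-effective.

(2) Let `s` be the support of the class `z` of the pull back of `- (K_X + Δ)` (`κ` is a canonical
divisor of `X`). Then `s` is empty if and only if `K_X + Δ` is pseudo-effective, and if `s` contains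
all `i` then `- (K_X + Δ)` is big. The class `z` and the sum of the `e_i`, `i` in `s`, dominate each
other (`HasFace`): `t z - ∑ e_i` and `t ∑ e_i - z` are pseudo-effective for some `t ≥ 1`. -/
theorem Pool.Agent.Results.MP_23b606_ag.InvariantBlocks.result
    {K' : Type} [Field K'] [Algebra ℂ K'] {N' n r k ρ : ℕ} {y' : Fin (N' + 1) → K'}
    (hy' : NormalModel y') (hn' : Algebra.trdeg ℂ K' = n) (hn0 : 0 < n) (hr : 0 < r)
    {c' : Place ℂ K' → Fin ρ → ℤ} (hc' : PicardBasis y' c')
    {φ : (Fin r → ℤ) → (K' ≃ₐ[ℂ] K')} (hφ : ∀ u v, φ (u + v) = φ u * φ v)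
    (hps : ∀ v, PseudoAut (φ v) y') (hent : ∀ v, v ≠ 0 → 1 < dynDegree (φ v) y' n 1)
    {u : Fin ρ → Fin ρ → ℤ} (hu : LinearIndependent ℝ (fun j i => (u j i : ℝ)))
    {β : Fin ρ → Fin k} (hβ : ∀ i, ∃ j j', j ≠ j' ∧ β j = i ∧ β j' = i) (hρ : ρ = r + k)
    (hbl : ∀ v, PreservesBlocks y' c' u β (φ v)) :
    ∃ e : Fin k → Fin ρ → ℝ,
      (∀ i, IsRat (e i) ∧ e i ∈ closure (effCone y' c') ∧ IsBlockSupport u β (e i) {i}) ∧
      ∀ (K : Type) [Field K] [Algebra ℂ K] (N : ℕ) (y : Fin (N + 1) → K) (π : K →ₐ[ℂ] K')
        (Δ : Place ℂ K → ℚ), NormalModel y → Algebra.trdeg ℂ K = n → FiniteMap π y y' →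
        {P | IsPrimeDivisor y P ∧ Δ P ≠ 0}.Finite →
        (∀ Q P e, IsPrimeDivisor y' Q → LiesOver π Q P e → 1 ≤ (e : ℚ) * (1 - Δ P)) →
        LogAntiPsef y n Δ ∧ (LogPsef y n Δ → IrregularityZero y → LogTorsion y n Δ) ∧
        ∀ (x : Fin n → K) (E : Fin n → Derivation ℂ K K) (κ : Place ℂ K → ℤ) (z : Fin ρ → ℝ),
          IsTranscendenceBasis ℂ x → Can y x E κ →
          IsPullBackClass π y' c' (fun P => -(κ P + Δ P)) z →
          ∃ s, HasFace u β (closure (effCone y' c')) e z s ∧ (s = ∅ ↔ LogPsef y n Δ) ∧
            (s = Finset.univ → LogAntiBig y n Δ) :=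
  quotients_blocks hy' hn' hn0 hr hc' hφ hps hent hu hβ hρ hbl
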